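import Pool.Agent.W966.Vg.Stms4

/-!
# VT-EXP: the exponent from both bounds
-/

set_option autoImplicit false
set_option maxHeartbeats 400000

namespace Pool.Agent.W975.VT

open Pool.Agent.W966.Vg Pool.Agent.H515R2.MMR Filter

/-- **VT-EXP** -/
theorem expo : S_EXP := by
  intro N hN hlow
  have hsub : {τ : ℝ | ∃ C : ℝ, ∀ n : ℕ, (rk n : ℝ) ≤ C * (n : ℝ) ^ τ} ⊆
      {τ : ℝ | ∃ C : ℝ, ∀ m : ℕ, (N m : ℝ) ≤ C * (m : ℝ) ^ τ} := by
    rintro τ ⟨C, hC⟩
    refine ⟨2 * C, fun m => ?_⟩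
    have h1 : (N m : ℝ) ≤ 2 * rk m := by exact_mod_cast hN m
    have h2 := hC m
    linarith
  have hle : ∀ τ ∈ {τ : ℝ | ∃ C : ℝ, ∀ m : ℕ, (N m : ℝ) ≤ C * (m : ℝ) ^ τ}, omega ≤ τ := by
    rintro τ ⟨C, hC⟩
    by_contra hcon
    push Not at hcon
    have hω := omega_nonneg
    have h2p : (0 : ℝ) < 2 ^ omega := Real.rpow_pos_of_pos two_pos _
    have key : ∀ m : ℕ, 1 ≤ m → ((m + 1 : ℕ) : ℝ) ^ (omega - τ) ≤ 6 * C * 2 ^ omega := by
      intro m hm
      have hm' : (1 : ℝ) ≤ m := by exact_mod_cast hm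
      have hm1 : (0 : ℝ) < ((m + 1 : ℕ) : ℝ) := by positivity
      have h1 := hlow m
      have h2 := hC (m + 1)
      have h3 : ((m + 1 : ℕ) : ℝ) ^ omega ≤ 2 ^ omega * (m : ℝ) ^ omega := by
        rw [← Real.mul_rpow (by norm_num) (by positivity)]
        refine Real.rpow_le_rpow hm1.le ?_ hω
        push_cast
        linarith
      have h4 : ((m + 1 : ℕ) : ℝ) ^ omega ≤
          2 ^ omega * (6 * (C * ((m + 1 : ℕ) : ℝ) ^ τ)) := by
        refine h3.trans (mul_le_mul_of_nonneg_left (h1.trans ?_) h2p.le)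
        linarith
      have hτ : (0 : ℝ) < ((m + 1 : ℕ) : ℝ) ^ τ := Real.rpow_pos_of_pos hm1 _
      rw [Real.rpow_sub hm1, div_le_iff₀ hτ]
      refine h4.trans (le_of_eq ?_)
      ring
    have t := (tendsto_rpow_atTop (y := omega - τ) (by linarith)).comp
      (tendsto_natCast_atTop_atTop (R := ℝ))
    obtain ⟨n, hn1, hn2⟩ := ((t.eventually_gt_atTop (6 * C * 2 ^ omega)).and
      (eventually_ge_atTop 2)).exists
    obtain ⟨m, rfl⟩ : ∃ m, n = m + 1 := ⟨n - 1, by omega⟩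
    have := key m (by omega)
    simp only [Function.comp] at hn1
    linarith
  apply le_antisymm
  · exact le_csInf (omega_set_nonempty.mono hsub) hle
  · exact csInf_le_csInf ⟨omega, hle⟩ omega_set_nonempty hsub

end Pool.Agent.W975.VT
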